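import Pool.Agent.helper1.T1N.SpecN

set_option autoImplicit false

open MeasureTheory Finset

namespace Pool.Agent.T1N

/-- **Row NBQ** (final output, cells). -/
theorem NBQ_proof (hNBC : NBC_stmt) : NBQ_stmt := by
  classical
  obtain ⟨C, hC, h⟩ := hNBC
  refine ⟨2 * C, by linarith, ?_⟩
  intro N L θ U M hL hLN hθ hθ1 hU hUb hS hM
  have hN : 0 < N := by linarith
  have hM' : ∀ m : ℤ, ∃ X : ℝ, m ∈ M → ∃ t : ℝ, (m : ℝ) ≤ N * X ∧ N * X < m + 1 ∧ |X| ≤ 1 / 4 ∧ L ≤ |t| ∧ |t| ≤ N ∧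
      θ * U.card ≤ ‖EE U t X‖ := by
    intro m
    by_cases hm : m ∈ M
    · obtain ⟨X, t, ht⟩ := hM m hm
      exact ⟨X, fun _ => ⟨t, ht⟩⟩
    · exact ⟨0, fun h => absurd h hm⟩
  choose X hX using hM'
  have key : ∀ (P : ℤ → Prop) [DecidablePred P], (∀ m m', P m → P m' → m ≠ m' → 2 ≤ |m - m'|) →
      ((M.filter P).card : ℝ) ≤ C * (θ ^ 5)⁻¹ * (N / U.card) ^ 3 * (N / Real.sqrt L) * (1 + Real.log N) := by
    intro P _ hP
    have hinj : Set.InjOn X ((M.filter P : Finset ℤ) : Set ℤ) := by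
      intro m hm m' hm' hXX
      rw [Finset.mem_coe, Finset.mem_filter] at hm hm'
      obtain ⟨t, h1, h2, _⟩ := hX m hm.1
      obtain ⟨t', h1', h2', _⟩ := hX m' hm'.1
      rw [hXX] at h1 h2
      have e1 : (m : ℝ) < (m' : ℝ) + 1 := lt_of_le_of_lt h1 h2'
      have e2 : (m' : ℝ) < (m : ℝ) + 1 := lt_of_le_of_lt h1' h2
      have e3 : m < m' + 1 := by exact_mod_cast e1
      have e4 : m' < m + 1 := by exact_mod_cast e2
      omega
    rw [← Finset.card_image_of_injOn hinj]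
    apply h N L θ U _ hL hLN hθ hθ1 hU hUb hS
    · intro x hx
      obtain ⟨m, hm, rfl⟩ := Finset.mem_image.mp hx
      obtain ⟨t, _, _, h3, _⟩ := hX m (Finset.mem_filter.mp hm).1
      exact h3
    · intro x hx y hy hxy
      obtain ⟨m, hm, rfl⟩ := Finset.mem_image.mp hx
      obtain ⟨m', hm', rfl⟩ := Finset.mem_image.mp hy
      rw [Finset.mem_filter] at hm hm'
      obtain ⟨t, h1, h2, _⟩ := hX m hm.1
      obtain ⟨t', h1', h2', _⟩ := hX m' hm'.1
      have hne : m ≠ m' := fun e => hxy (by rw [e])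
      have h2m := hP m m' hm.2 hm'.2 hne
      rw [div_le_iff₀ hN]
      rcases le_or_gt 0 (m - m') with hs | hs
      · rw [abs_of_nonneg hs] at h2m
        have h2m' : (2 : ℝ) ≤ (m : ℝ) - m' := by exact_mod_cast h2m
        have : 1 ≤ (X m - X m') * N := by nlinarith
        exact this.trans (mul_le_mul_of_nonneg_right (le_abs_self _) hN.le)
      · rw [abs_of_neg hs] at h2m
        have h2m' : (2 : ℝ) ≤ -((m : ℝ) - m') := by exact_mod_cast h2m
        have : 1 ≤ (-(X m - X m')) * N := by nlinarith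
        exact this.trans (mul_le_mul_of_nonneg_right (neg_le_abs _) hN.le)
    · intro x hx
      obtain ⟨m, hm, rfl⟩ := Finset.mem_image.mp hx
      obtain ⟨t, _, _, _, h4, h5, h6⟩ := hX m (Finset.mem_filter.mp hm).1
      exact ⟨t, h4, h5, h6⟩
  have hE := key (fun m => m % 2 = 0) (by
    intro m m' hm hm' hne
    rw [le_abs]
    omega)
  have hO := key (fun m => ¬ m % 2 = 0) (by
    intro m m' hm hm' hne
    rw [le_abs]
    omega)
  have hsum : (M.filter (fun m => m % 2 = 0)).card + (M.filter (fun m => ¬ m % 2 = 0)).card = M.card :=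
    Finset.card_filter_add_card_filter_not _
  have : (M.card : ℝ) = ((M.filter (fun m => m % 2 = 0)).card : ℝ) + ((M.filter (fun m => ¬ m % 2 = 0)).card : ℝ) := by
    exact_mod_cast hsum.symm
  rw [this]
  have e : 2 * C * (θ ^ 5)⁻¹ * (N / U.card) ^ 3 * (N / Real.sqrt L) * (1 + Real.log N) =
      C * (θ ^ 5)⁻¹ * (N / U.card) ^ 3 * (N / Real.sqrt L) * (1 + Real.log N) +
      C * (θ ^ 5)⁻¹ * (N / U.card) ^ 3 * (N / Real.sqrt L) * (1 + Real.log N) := by ring
  rw [e]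
  exact add_le_add hE hO

end Pool.Agent.T1N
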