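import Pool.Agent.helper1.T1N.SpecN

set_option autoImplicit false

open MeasureTheory Finset

namespace Pool.Agent.T1N

/-- separated sets in an interval -/
lemma NLC_count {δ l a : ℝ} (hδ : 0 < δ) (hl : 0 ≤ l) (A : Finset ℝ) (hA : Sep δ A) (h : ∀ x ∈ A, a ≤ x ∧ x ≤ a + l) :
    (A.card : ℝ) ≤ l / δ + 1 := by
  classical
  have hinj : Set.InjOn (fun x : ℝ => ⌊(x - a) / δ⌋₊) (A : Set ℝ) := by
    intro x hx y hy hxy
    by_contra hne
    have h1 := hA x hx y hy hne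
    have hx0 : 0 ≤ (x - a) / δ := div_nonneg (by linarith [(h x hx).1]) hδ.le
    have hy0 : 0 ≤ (y - a) / δ := div_nonneg (by linarith [(h y hy).1]) hδ.le
    have e1 := Nat.floor_le hx0
    have e2 := Nat.lt_floor_add_one ((x - a) / δ)
    have e3 := Nat.floor_le hy0
    have e4 := Nat.lt_floor_add_one ((y - a) / δ)
    have hxy' : ⌊(x - a) / δ⌋₊ = ⌊(y - a) / δ⌋₊ := hxy
    rw [hxy'] at e1 e2
    have h2 : |(x - a) / δ - (y - a) / δ| < 1 := by
      rw [abs_lt]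
      constructor <;> linarith
    have e5 : (x - a) / δ - (y - a) / δ = (x - y) / δ := by ring
    rw [e5, abs_div, abs_of_pos hδ, div_lt_one hδ] at h2
    linarith
  have hmaps : A.image (fun x => ⌊(x - a) / δ⌋₊) ⊆ Finset.range (⌊l / δ⌋₊ + 1) := by
    intro n hn
    obtain ⟨x, hx, rfl⟩ := Finset.mem_image.mp hn
    rw [Finset.mem_range]
    apply Nat.lt_succ_of_le
    apply Nat.floor_le_floor
    apply div_le_div_of_nonneg_right _ hδ.le
    linarith [(h x hx).2]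
  have h3 := Finset.card_le_card hmaps
  rw [Finset.card_image_of_injOn hinj, Finset.card_range] at h3
  calc (A.card : ℝ) ≤ ((⌊l / δ⌋₊ + 1 : ℕ) : ℝ) := by exact_mod_cast h3
    _ = (⌊l / δ⌋₊ : ℝ) + 1 := by push_cast; ring
    _ ≤ l / δ + 1 := by linarith [Nat.floor_le (div_nonneg hl hδ.le)]

lemma NLC_low (hNTY : NTY_stmt) (hNEE : NEE_stmt) {T θ X0 ξ t : ℝ} {U : Finset ℝ} (hT : 1 ≤ T) (hθ : 0 < θ)
    (hX0 : |X0| ≤ 1 / 4) (hX : |X0 + ξ| ≤ 1 / 4) (hξ : |ξ| ≤ Real.sqrt (θ / T) / 100) (ht0 : T ≤ t) (ht : t ≤ 2 * T)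
    (hU : ∀ u ∈ U, |u| ≤ 2) (h : θ * U.card ≤ ‖EE U t (X0 + ξ)‖) :
    θ / 2 * U.card ≤ ‖∑ u ∈ U, ee (t * (u / (1 - X0 * u)) + t * ξ * (u / (1 - X0 * u)) ^ 2)‖ := by
  have hT0 : 0 < T := by linarith
  have hsq : ξ ^ 2 ≤ θ / T / 10000 := by
    have h1 : ξ ^ 2 ≤ (Real.sqrt (θ / T) / 100) ^ 2 := by
      rw [← sq_abs]
      exact pow_le_pow_left₀ (abs_nonneg _) hξ 2
    have h2 : (Real.sqrt (θ / T) / 100) ^ 2 = θ / T / 10000 := by
      rw [div_pow, Real.sq_sqrt (by positivity)]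
      norm_num
    linarith
  have hd : ‖EE U t (X0 + ξ) - ∑ u ∈ U, ee (t * (u / (1 - X0 * u)) + t * ξ * (u / (1 - X0 * u)) ^ 2)‖ ≤ U.card * (θ / 2) := by
    unfold EE
    rw [← Finset.sum_sub_distrib]
    refine (norm_sum_le _ _).trans ?_
    rw [← nsmul_eq_mul]
    apply Finset.sum_le_card_nsmul
    intro u hu
    refine (hNEE.2.2.2.1 _ _).trans ?_
    have h1 := ((hNTY X0 hX0).1 u (hU u hu)).2 ξ hX
    have e : t * (u / (1 - (X0 + ξ) * u)) - (t * (u / (1 - X0 * u)) + t * ξ * (u / (1 - X0 * u)) ^ 2) =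
        t * (u / (1 - (X0 + ξ) * u) - u / (1 - X0 * u) - ξ * (u / (1 - X0 * u)) ^ 2) := by ring
    rw [e, abs_mul, abs_of_nonneg (by linarith : (0 : ℝ) ≤ t)]
    have h2 : t * |u / (1 - (X0 + ξ) * u) - u / (1 - X0 * u) - ξ * (u / (1 - X0 * u)) ^ 2| ≤ 2 * T * (64 * (θ / T / 10000)) := by
      apply mul_le_mul ht (h1.trans (by linarith)) (abs_nonneg _) (by linarith)
    have h3 : 2 * T * (64 * (θ / T / 10000)) = 128 / 10000 * θ := by
      field_simp
      ring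
    rw [h3] at h2
    have hpi : Real.pi ≤ 4 := Real.pi_le_four
    have hpi0 : 0 < Real.pi := Real.pi_pos
    calc 2 * Real.pi * (t * |u / (1 - (X0 + ξ) * u) - u / (1 - X0 * u) - ξ * (u / (1 - X0 * u)) ^ 2|)
        ≤ 2 * 4 * (128 / 10000 * θ) := by
          exact mul_le_mul (by linarith) h2 (mul_nonneg (by linarith) (abs_nonneg _)) (by norm_num)
      _ ≤ θ / 2 := by linarith
  have h4 := norm_sub_norm_le (EE U t (X0 + ξ)) (∑ u ∈ U, ee (t * (u / (1 - X0 * u)) + t * ξ * (u / (1 - X0 * u)) ^ 2))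
  linarith

lemma NLC_sq (hNEE : NEE_stmt) (S : Finset ℝ) (t η : ℝ) : (∑ s ∈ S, ee (t * s + η * s ^ 2)) ^ 2 =
    F2 (S ×ˢ S) (fun _ => 1) (fun k : ℝ × ℝ => k.1 + k.2) (fun k : ℝ × ℝ => k.1 ^ 2 + k.2 ^ 2) t η := by
  unfold F2
  rw [sq, Finset.sum_mul_sum, Finset.sum_product]
  refine Finset.sum_congr rfl fun a _ => Finset.sum_congr rfl fun b _ => ?_
  rw [one_mul, ← hNEE.2.1]
  congr 1
  ring

lemma NLC_Cl {ι : Type} (s : Finset ι) (x y : ι → ℝ) {T H : ℝ} (hT : 0 < T) : Cl s x y (2 * T) H ≤ Cl s x y T H := by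
  unfold Cl
  apply Finset.card_le_card
  intro k hk
  rw [Finset.mem_filter] at hk ⊢
  exact ⟨hk.1, hk.2.1.trans (one_div_le_one_div_of_le hT (by linarith)), hk.2.2⟩

/-- the geometry of the points -/
lemma NLC_geo {T θ ξ ξ' t t' : ℝ} (hT : 1 ≤ T) (hθ1 : θ ≤ 1) (hξ' : |ξ'| ≤ Real.sqrt (θ / T) / 100) (ht : T ≤ t)
    (h1 : |t - t'| < 1) (h2 : |t * ξ - t' * ξ'| < 1) : |ξ - ξ'| ≤ 2 / T := by
  have hT0 : 0 < T := by linarith
  have ht0 : 0 < t := by linarith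
  have hs : Real.sqrt (θ / T) ≤ 1 := by
    rw [Real.sqrt_le_one, div_le_one hT0]
    linarith
  have hξ1 : |ξ'| ≤ 1 := by linarith
  have e : t * (ξ - ξ') = (t * ξ - t' * ξ') - (t - t') * ξ' := by ring
  have h3 : |t * (ξ - ξ')| ≤ 2 := by
    rw [e]
    refine (abs_sub _ _).trans ?_
    have : |(t - t') * ξ'| ≤ 1 := by
      rw [abs_mul]
      calc |t - t'| * |ξ'| ≤ 1 * 1 := mul_le_mul h1.le hξ1 (abs_nonneg _) zero_le_one
        _ = 1 := one_mul 1
    linarith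
  rw [abs_mul, abs_of_pos ht0] at h3
  rw [le_div_iff₀ hT0]
  calc |ξ - ξ'| * T ≤ |ξ - ξ'| * t := mul_le_mul_of_nonneg_left ht (abs_nonneg _)
    _ = t * |ξ - ξ'| := mul_comm _ _
    _ ≤ 2 := h3

/-- **Row NLC** (one short interval of `X`, `t ~ T`). -/
theorem NLC_proof (hNLS : NLS_stmt) (hNQC : NQC_stmt) (hNTY : NTY_stmt) (hNMX : NMX_stmt) (hNEE : NEE_stmt) : NLC_stmt := by
  classical
  obtain ⟨C1, hC1, hLS⟩ := hNLS 32 (by norm_num)
  obtain ⟨C2, hC2, hQC⟩ := hNQC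
  refine ⟨160 * (C1 * C2), by nlinarith, ?_⟩
  intro N T θ X0 U A hT hTN hθ hθ1 hU hU2 hUs hX0 hA hAs hAt
  have hT0 : 0 < T := by linarith
  have hN0 : 0 < N := by linarith
  choose! t ht using hAt
  set f : ℝ → ℝ × ℝ := fun X => (t X, t X * (X - X0)) with hf
  obtain ⟨R, hRA, hRs, hRm⟩ := hNMX A f
  set σ : ℝ → ℝ := fun u => u / (1 - X0 * u) with hσ
  have hσd := (hNTY X0 hX0).2
  have hσinj : Set.InjOn σ (U : Set ℝ) := by
    intro u hu u' hu' he
    by_contra hne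
    have h1 := hσd u u' (hU2 u hu) (hU2 u' hu')
    have he' : u / (1 - X0 * u) = u' / (1 - X0 * u') := he
    rw [he', sub_self, abs_zero] at h1
    have h2 : 0 < |u - u'| := abs_pos.mpr (sub_ne_zero.mpr hne)
    linarith
  set S : Finset ℝ := U.image σ with hSdef
  have hScard : S.card = U.card := Finset.card_image_of_injOn hσinj
  have hS4 : ∀ s ∈ S, |s| ≤ 4 := by
    intro s hs
    obtain ⟨u, hu, rfl⟩ := Finset.mem_image.mp hs
    exact ((hNTY X0 hX0).1 u (hU2 u hu)).1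
  have hSs : Sep (1 / (4 * N)) S := by
    intro s hs s' hs' hne
    obtain ⟨u, hu, rfl⟩ := Finset.mem_image.mp hs
    obtain ⟨u', hu', rfl⟩ := Finset.mem_image.mp hs'
    have hne' : u ≠ u' := fun e => hne (by rw [e])
    have h1 := hUs u hu u' hu' hne'
    have h2 := hσd u u' (hU2 u hu) (hU2 u' hu')
    have h3 : 1 / (4 * N) = 1 / N / 4 := by
      field_simp
    rw [h3]
    exact (div_le_div_of_nonneg_right h1 (by norm_num)).trans h2
  have hUc : 0 < (U.card : ℝ) := by exact_mod_cast Finset.card_pos.mpr hU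
  -- the points
  set H : ℝ := Real.sqrt T with hHdef
  have hH1 : 1 ≤ H := Real.one_le_sqrt.mpr hT
  have hH0 : 0 < H := by linarith
  have hHT : H ≤ T := by
    rw [hHdef, Real.sqrt_le_left (by linarith)]
    nlinarith
  have hfinj : Set.InjOn f (R : Set ℝ) := by
    intro x hx y hy hxy
    by_contra hne
    have h1 := hRs x hx y hy hne
    rw [hxy] at h1
    norm_num at h1
  have hR'card : (R.image f).card = R.card := Finset.card_image_of_injOn hfinj
  -- lower bound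
  have hlow : ∀ r ∈ R.image f, (θ / 2 * U.card) ^ 4 ≤
      ‖F2 (S ×ˢ S) (fun _ => 1) (fun k : ℝ × ℝ => k.1 + k.2) (fun k : ℝ × ℝ => k.1 ^ 2 + k.2 ^ 2) r.1 r.2‖ ^ 2 := by
    intro r hr
    obtain ⟨X, hX, rfl⟩ := Finset.mem_image.mp hr
    have hXA := hRA hX
    obtain ⟨ht1, ht2, ht3⟩ := ht X hXA
    obtain ⟨hX1, hX2⟩ := hA X hXA
    have h1 := NLC_low hNTY hNEE (ξ := X - X0) hT hθ hX0 (by rw [add_sub_cancel]; exact hX1) hX2 ht1 ht2 hU2
      (by rw [add_sub_cancel]; exact ht3)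
    have h2 : ∑ u ∈ U, ee (t X * (u / (1 - X0 * u)) + t X * (X - X0) * (u / (1 - X0 * u)) ^ 2) =
        ∑ s ∈ S, ee (t X * s + t X * (X - X0) * s ^ 2) := by
      rw [hSdef, Finset.sum_image hσinj]
    rw [h2] at h1
    change (θ / 2 * (U.card : ℝ)) ^ 4 ≤ ‖F2 (S ×ˢ S) (fun _ => 1) (fun k : ℝ × ℝ => k.1 + k.2) (fun k : ℝ × ℝ => k.1 ^ 2 + k.2 ^ 2)
      (t X) (t X * (X - X0))‖ ^ 2
    rw [← NLC_sq hNEE, norm_pow, ← pow_mul]
    exact pow_le_pow_left₀ (by positivity) h1 4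
  have hsum : ((R.image f).card : ℝ) * (θ / 2 * U.card) ^ 4 ≤ ∑ r ∈ R.image f,
      ‖F2 (S ×ˢ S) (fun _ => 1) (fun k : ℝ × ℝ => k.1 + k.2) (fun k : ℝ × ℝ => k.1 ^ 2 + k.2 ^ 2) r.1 r.2‖ ^ 2 := by
    rw [← nsmul_eq_mul]
    exact Finset.card_nsmul_le_sum _ _ _ hlow
  have hup := hLS (ℝ × ℝ) (S ×ˢ S) (fun _ => 1) (fun k : ℝ × ℝ => k.1 + k.2) (fun k : ℝ × ℝ => k.1 ^ 2 + k.2 ^ 2) (2 * T) H (R.image f)
    (fun _ _ => by rw [norm_one])
    (by
      intro k hk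
      rw [Finset.mem_product] at hk
      have h1 := hS4 k.1 hk.1
      have h2 := hS4 k.2 hk.2
      rw [abs_le] at h1 h2
      refine ⟨?_, ?_⟩
      · rw [abs_le]
        constructor <;> linarith
      · rw [abs_of_nonneg (by positivity)]
        nlinarith)
    (by linarith) hH1
    (by
      intro r hr
      obtain ⟨X, hX, rfl⟩ := Finset.mem_image.mp hr
      have hXA := hRA hX
      obtain ⟨ht1, ht2, ht3⟩ := ht X hXA
      obtain ⟨hX1, hX2⟩ := hA X hXA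
      refine ⟨?_, ?_⟩
      · change |t X| ≤ 2 * T
        rw [abs_of_nonneg (by linarith)]
        exact ht2
      · change |t X * (X - X0)| ≤ H
        rw [abs_mul, abs_of_nonneg (by linarith : (0 : ℝ) ≤ t X)]
        have h1 : Real.sqrt (θ / T) ≤ 1 / H := by
          rw [hHdef, Real.sqrt_div hθ.le]
          apply div_le_div_of_nonneg_right _ hH0.le
          exact Real.sqrt_le_one.mpr hθ1
        have h2 : T = H * H := (Real.mul_self_sqrt hT0.le).symm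
        calc t X * |X - X0| ≤ 2 * T * (1 / H / 100) := by
              apply mul_le_mul ht2 (hX2.trans (by linarith)) (abs_nonneg _) (by linarith)
          _ = H / 50 := by
              rw [h2]
              field_simp
              ring
          _ ≤ H := by linarith)
    (by
      intro r hr r' hr' hne
      obtain ⟨X, hX, rfl⟩ := Finset.mem_image.mp hr
      obtain ⟨X', hX', rfl⟩ := Finset.mem_image.mp hr'
      exact hRs X hX X' hX' (fun e => hne (by rw [e])))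
  have hCl : (Cl (S ×ˢ S) (fun k : ℝ × ℝ => k.1 + k.2) (fun k : ℝ × ℝ => k.1 ^ 2 + k.2 ^ 2) (2 * T) H : ℝ) ≤
      C2 * S.card * (N ^ 3 / (T * H)) * (1 + Real.log N) :=
    le_trans (by exact_mod_cast NLC_Cl _ _ _ hT0) (hQC N T H S hH1 hHT hTN hS4 hSs)
  have hlog : 0 ≤ Real.log N := Real.log_nonneg (by linarith)
  have hRb : (R.card : ℝ) * (θ / 2 * U.card) ^ 4 ≤ 2 * (C1 * C2) * U.card * N ^ 3 * (1 + Real.log N) := by
    rw [← hR'card]
    refine (hsum.trans hup).trans ?_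
    calc C1 * (2 * T) * H * (Cl (S ×ˢ S) (fun k : ℝ × ℝ => k.1 + k.2) (fun k : ℝ × ℝ => k.1 ^ 2 + k.2 ^ 2) (2 * T) H : ℝ)
        ≤ C1 * (2 * T) * H * (C2 * S.card * (N ^ 3 / (T * H)) * (1 + Real.log N)) :=
          mul_le_mul_of_nonneg_left hCl (by positivity)
      _ = 2 * (C1 * C2) * U.card * N ^ 3 * (1 + Real.log N) := by
          rw [hScard]
          field_simp
  have hRb2 : (R.card : ℝ) ≤ 32 * (C1 * C2) * (θ ^ 4)⁻¹ * (N / U.card) ^ 3 * (1 + Real.log N) := by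
    have hp : 0 < (θ / 2 * (U.card : ℝ)) ^ 4 := by positivity
    rw [← le_div_iff₀ hp] at hRb
    refine hRb.trans (le_of_eq ?_)
    field_simp
    ring
  -- covering
  have hcov : A ⊆ R.biUnion (fun X' => A.filter (fun X => |X - X'| ≤ 2 / T)) := by
    intro X hX
    obtain ⟨X', hX', h1, h2⟩ := hRm X hX
    rw [Finset.mem_biUnion]
    refine ⟨X', hX', Finset.mem_filter.mpr ⟨hX, ?_⟩⟩
    have h3 := NLC_geo (ξ := X - X0) (ξ' := X' - X0) hT hθ1 (hA X' (hRA hX')).2 (ht X hX).1 h1 h2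
    have e : X - X0 - (X' - X0) = X - X' := by ring
    rw [e] at h3
    exact h3
  have hone : ∀ X' ∈ R, ((A.filter (fun X => |X - X'| ≤ 2 / T)).card : ℝ) ≤ 5 * (N / T) := by
    intro X' _
    have h1 := NLC_count (δ := 1 / N) (l := 4 / T) (a := X' - 2 / T) (by positivity) (by positivity)
      (A.filter (fun X => |X - X'| ≤ 2 / T))
      (fun x hx y hy hne => hAs x (Finset.mem_filter.mp hx).1 y (Finset.mem_filter.mp hy).1 hne)
      (by
        intro x hx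
        have h2 := (Finset.mem_filter.mp hx).2
        rw [abs_le] at h2
        have h3 : 4 / T = 2 / T + 2 / T := by ring
        constructor <;> linarith)
    refine h1.trans ?_
    have h2 : 4 / T / (1 / N) = 4 * (N / T) := by
      field_simp
    have h3 : 1 ≤ N / T := by
      rw [le_div_iff₀ hT0]
      linarith
    rw [h2]
    linarith
  have hfin : (A.card : ℝ) ≤ R.card * (5 * (N / T)) := by
    have h1 : (A.card : ℝ) ≤ ∑ X' ∈ R, ((A.filter (fun X => |X - X'| ≤ 2 / T)).card : ℝ) := by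
      have := (Finset.card_le_card hcov).trans Finset.card_biUnion_le
      exact_mod_cast this
    refine h1.trans ?_
    rw [← nsmul_eq_mul]
    exact Finset.sum_le_card_nsmul _ _ _ hone
  calc (A.card : ℝ) ≤ R.card * (5 * (N / T)) := hfin
    _ ≤ (32 * (C1 * C2) * (θ ^ 4)⁻¹ * (N / U.card) ^ 3 * (1 + Real.log N)) * (5 * (N / T)) :=
        mul_le_mul_of_nonneg_right hRb2 (by positivity)
    _ = 160 * (C1 * C2) * (N / T) * (θ ^ 4)⁻¹ * (N / U.card) ^ 3 * (1 + Real.log N) := by ring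

end Pool.Agent.T1N
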