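import Pool.Agent.helper1.T1N.SpecN

set_option autoImplicit false

open MeasureTheory Finset

namespace Pool.Agent.T1N

/-- the identity for quadruples -/
lemma NQC_id {H T s1 s2 s3 s4 : ℝ} (hH : 1 ≤ H) (hHT : H ≤ T) (h1 : |s1| ≤ 4) (h2 : |s2| ≤ 4) (h3 : |s3| ≤ 4) (h4 : |s4| ≤ 4)
    (hx : |s1 + s2 - (s3 + s4)| ≤ 1 / T) (hy : |s1 ^ 2 + s2 ^ 2 - (s3 ^ 2 + s4 ^ 2)| ≤ 1 / H) :
    |(s3 - s4) ^ 2 - (s1 - s2) ^ 2| ≤ 18 / H := by
  have hT : 1 / T ≤ 1 / H := one_div_le_one_div_of_le (by linarith) hHT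
  have e : (s3 - s4) ^ 2 - (s1 - s2) ^ 2 = (s1 + s2 - (s3 + s4)) * (s1 + s2 + s3 + s4) - 2 * (s1 ^ 2 + s2 ^ 2 - (s3 ^ 2 + s4 ^ 2)) := by ring
  rw [e]
  refine (abs_sub _ _).trans ?_
  rw [abs_mul, abs_mul, abs_two]
  have h5 : |s1 + s2 + s3 + s4| ≤ 16 := by
    rw [abs_le] at h1 h2 h3 h4 ⊢
    constructor <;> linarith
  have h6 : |s1 + s2 - (s3 + s4)| * |s1 + s2 + s3 + s4| ≤ 1 / H * 16 :=
    mul_le_mul (hx.trans hT) h5 (abs_nonneg _) (by positivity)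
  have h7 : 18 / H = 1 / H * 16 + 2 * (1 / H) := by ring
  rw [h7]
  linarith

lemma NQC_diag (hNCT : NCT_stmt) {N T H s : ℝ} {S : Finset ℝ} (hH : 1 ≤ H) (hHT : H ≤ T) (hTN : T ≤ N) (hS : ∀ s ∈ S, |s| ≤ 4)
    (hSep : Sep (1 / (4 * N)) S) (hs : s ∈ S) (P : Finset (ℝ × ℝ)) (hP : P ⊆ S ×ˢ S)
    (hPx : ∀ b ∈ P, |s + s - (b.1 + b.2)| ≤ 1 / T ∧ |s ^ 2 + s ^ 2 - (b.1 ^ 2 + b.2 ^ 2)| ≤ 1 / H) :
    (P.card : ℝ) ≤ 420 * (N ^ 3 / (T * H)) := by
  classical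
  have hN : 0 < N := by linarith
  have hT : 0 < T := by linarith
  have hsH : 0 < Real.sqrt H := Real.sqrt_pos.mpr (by linarith)
  have h1 := hNCT (1 / (4 * N)) (1 / T) (5 / Real.sqrt H) (s + s) 0 S (by positivity) (by positivity) (by positivity) hSep
  have hsub : P ⊆ (S ×ˢ S).filter fun q => |q.1 + q.2 - (s + s)| ≤ 1 / T ∧ |q.1 - q.2 - 0| ≤ 5 / Real.sqrt H := by
    intro b hb
    obtain ⟨hb1, hb2⟩ := hPx b hb
    have hbS := Finset.mem_product.mp (hP hb)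
    refine Finset.mem_filter.mpr ⟨hP hb, ?_, ?_⟩
    · rw [abs_sub_comm]
      exact hb1
    · rw [sub_zero]
      have h2 := NQC_id hH hHT (hS s hs) (hS s hs) (hS _ hbS.1) (hS _ hbS.2) hb1 hb2
      apply abs_le_of_sq_le_sq _ (by positivity)
      rw [div_pow, Real.sq_sqrt (by linarith)]
      have h3 := (le_abs_self _).trans h2
      have h4 : 18 / H ≤ 5 ^ 2 / H := div_le_div_of_nonneg_right (by norm_num) (by linarith)
      have h5 : (b.1 - b.2) ^ 2 - (s - s) ^ 2 = (b.1 - b.2) ^ 2 := by ring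
      rw [h5] at h3
      linarith
  have h2 : (P.card : ℝ) ≤ 4 * (1 + 1 / T / (1 / (4 * N))) * (1 + 5 / Real.sqrt H / (1 / (4 * N))) :=
    le_trans (by exact_mod_cast Finset.card_le_card hsub) h1
  refine h2.trans ?_
  have hss : Real.sqrt H * Real.sqrt H = H := Real.mul_self_sqrt (by linarith)
  have hs1 : 1 ≤ Real.sqrt H := Real.one_le_sqrt.mpr hH
  have hsN : Real.sqrt H ≤ N := by nlinarith
  have e1 : 1 + 1 / T / (1 / (4 * N)) ≤ 5 * (N / T) := by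
    have : 1 / T / (1 / (4 * N)) = 4 * (N / T) := by
      field_simp
    rw [this]
    have h3 : 1 ≤ N / T := (one_le_div hT).mpr hTN
    linarith
  have e2 : 1 + 5 / Real.sqrt H / (1 / (4 * N)) ≤ 21 * (N / Real.sqrt H) := by
    have : 5 / Real.sqrt H / (1 / (4 * N)) = 20 * (N / Real.sqrt H) := by
      field_simp
      ring
    rw [this]
    have h3 : 1 ≤ N / Real.sqrt H := (one_le_div hsH).mpr hsN
    linarith
  have e3 : N / Real.sqrt H ≤ N ^ 2 / H := by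
    rw [div_le_div_iff₀ hsH (by linarith)]
    calc N * H = N * (Real.sqrt H * Real.sqrt H) := by rw [hss]
      _ ≤ N * (N * Real.sqrt H) := mul_le_mul_of_nonneg_left (mul_le_mul_of_nonneg_right hsN hsH.le) hN.le
      _ = N ^ 2 * Real.sqrt H := by ring
  calc 4 * (1 + 1 / T / (1 / (4 * N))) * (1 + 5 / Real.sqrt H / (1 / (4 * N)))
      ≤ 4 * (5 * (N / T)) * (21 * (N ^ 2 / H)) := by
        apply mul_le_mul (mul_le_mul_of_nonneg_left e1 (by norm_num)) (e2.trans (by linarith)) (by positivity) (by positivity)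
    _ = 420 * (N ^ 3 / (T * H)) := by
        field_simp
        ring

lemma NQC_off (hNCT : NCT_stmt) {N T H s1 s2 : ℝ} {S : Finset ℝ} (hH : 1 ≤ H) (hHT : H ≤ T) (hTN : T ≤ N) (hS : ∀ s ∈ S, |s| ≤ 4)
    (hSep : Sep (1 / (4 * N)) S) (hs1 : s1 ∈ S) (hs2 : s2 ∈ S) (hne : s2 ≠ s1) (P : Finset (ℝ × ℝ)) (hP : P ⊆ S ×ˢ S)
    (hPx : ∀ b ∈ P, |s1 + s2 - (b.1 + b.2)| ≤ 1 / T ∧ |s1 ^ 2 + s2 ^ 2 - (b.1 ^ 2 + b.2 ^ 2)| ≤ 1 / H) :
    (P.card : ℝ) ≤ 3200 * (N ^ 2 / (T * H)) * (1 / |s2 - s1|) := by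
  classical
  have hN : 0 < N := by linarith
  have hT : 0 < T := by linarith
  have hH0 : 0 < H := by linarith
  set D : ℝ := |s2 - s1| with hD
  have hD0 : 0 < D := abs_pos.mpr (sub_ne_zero.mpr hne)
  have hD8 : D ≤ 8 := by
    have h1 := hS s1 hs1
    have h2 := hS s2 hs2
    rw [abs_le] at h1 h2
    rw [hD, abs_le]
    constructor <;> linarith
  have hDsq : (s1 - s2) ^ 2 = D ^ 2 := by
    rw [hD, sq_abs]
    ring
  set β : ℝ := 18 / (H * D) with hβ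
  have hβ0 : 0 < β := by positivity
  have hp := hNCT (1 / (4 * N)) (1 / T) β (s1 + s2) D S (by positivity) (by positivity) hβ0.le hSep
  have hm := hNCT (1 / (4 * N)) (1 / T) β (s1 + s2) (-D) S (by positivity) (by positivity) hβ0.le hSep
  have hsub : P ⊆ ((S ×ˢ S).filter fun q => |q.1 + q.2 - (s1 + s2)| ≤ 1 / T ∧ |q.1 - q.2 - D| ≤ β) ∪
      ((S ×ˢ S).filter fun q => |q.1 + q.2 - (s1 + s2)| ≤ 1 / T ∧ |q.1 - q.2 - -D| ≤ β) := by
    intro b hb
    obtain ⟨hb1, hb2⟩ := hPx b hb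
    have hbS := Finset.mem_product.mp (hP hb)
    have h2 := NQC_id hH hHT (hS s1 hs1) (hS s2 hs2) (hS _ hbS.1) (hS _ hbS.2) hb1 hb2
    rw [hDsq] at h2
    have hb1' : |b.1 + b.2 - (s1 + s2)| ≤ 1 / T := by
      rw [abs_sub_comm]
      exact hb1
    have hfac : ∀ z : ℝ, 0 ≤ z → z ^ 2 = (b.1 - b.2) ^ 2 → |z - D| ≤ β := by
      intro z hz hz2
      rw [← hz2] at h2
      have e : z ^ 2 - D ^ 2 = (z - D) * (z + D) := by ring
      rw [e, abs_mul, abs_of_nonneg (by linarith : (0 : ℝ) ≤ z + D)] at h2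
      have h3 : |z - D| * D ≤ 18 / H :=
        (mul_le_mul_of_nonneg_left (by linarith : D ≤ z + D) (abs_nonneg _)).trans h2
      rw [hβ, le_div_iff₀ (by positivity)]
      rw [le_div_iff₀ hH0] at h3
      calc |z - D| * (H * D) = |z - D| * D * H := by ring
        _ ≤ 18 := h3
    rw [Finset.mem_union]
    rcases le_or_gt 0 (b.1 - b.2) with h | h
    · left
      exact Finset.mem_filter.mpr ⟨hP hb, hb1', hfac _ h rfl⟩
    · right
      refine Finset.mem_filter.mpr ⟨hP hb, hb1', ?_⟩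
      have h3 := hfac (-(b.1 - b.2)) (by linarith) (by ring)
      have e : b.1 - b.2 - -D = -(-(b.1 - b.2) - D) := by ring
      rw [e, abs_neg]
      exact h3
  have h2 : (P.card : ℝ) ≤ 2 * (4 * (1 + 1 / T / (1 / (4 * N))) * (1 + β / (1 / (4 * N)))) := by
    have h3 := (Finset.card_le_card hsub).trans (Finset.card_union_le _ _)
    have h4 : (P.card : ℝ) ≤ (((S ×ˢ S).filter fun q => |q.1 + q.2 - (s1 + s2)| ≤ 1 / T ∧ |q.1 - q.2 - D| ≤ β).card : ℝ) +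
      (((S ×ˢ S).filter fun q => |q.1 + q.2 - (s1 + s2)| ≤ 1 / T ∧ |q.1 - q.2 - -D| ≤ β).card : ℝ) := by exact_mod_cast h3
    linarith
  refine h2.trans ?_
  have e1 : 1 + 1 / T / (1 / (4 * N)) ≤ 5 * (N / T) := by
    have : 1 / T / (1 / (4 * N)) = 4 * (N / T) := by
      field_simp
    rw [this]
    have h3 : 1 ≤ N / T := (one_le_div hT).mpr hTN
    linarith
  have e2 : 1 + β / (1 / (4 * N)) ≤ 80 * (N / (H * D)) := by
    have : β / (1 / (4 * N)) = 72 * (N / (H * D)) := by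
      rw [hβ]
      field_simp
      ring
    rw [this]
    have h3 : 1 ≤ 8 * (N / (H * D)) := by
      rw [← mul_div_assoc, one_le_div (by positivity)]
      nlinarith
    linarith
  calc 2 * (4 * (1 + 1 / T / (1 / (4 * N))) * (1 + β / (1 / (4 * N))))
      ≤ 2 * (4 * (5 * (N / T)) * (80 * (N / (H * D)))) := by
        apply mul_le_mul_of_nonneg_left _ (by norm_num)
        apply mul_le_mul (mul_le_mul_of_nonneg_left e1 (by norm_num)) e2 (by positivity) (by positivity)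
    _ = 3200 * (N ^ 2 / (T * H)) * (1 / D) := by
        field_simp
        ring

/-- **Row NQC** (quadruples). -/
theorem NQC_proof (hNHS : NHS_stmt) (hNCT : NCT_stmt) : NQC_stmt := by
  classical
  obtain ⟨C0, hC0, hHS⟩ := hNHS
  refine ⟨52000 * C0, by linarith, ?_⟩
  intro N T H S hH hHT hTN hS hSep
  have hN : 0 < N := by linarith
  have hN1 : 1 ≤ N := by linarith
  have hT : 0 < T := by linarith
  have hH0 : 0 < H := by linarith
  have hlog : 0 ≤ Real.log N := Real.log_nonneg hN1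
  have hCl : (Cl (S ×ˢ S) (fun k : ℝ × ℝ => k.1 + k.2) (fun k : ℝ × ℝ => k.1 ^ 2 + k.2 ^ 2) T H : ℝ) =
      ∑ a ∈ S ×ˢ S, (((S ×ˢ S).filter fun b : ℝ × ℝ => |a.1 + a.2 - (b.1 + b.2)| ≤ 1 / T ∧
        |a.1 ^ 2 + a.2 ^ 2 - (b.1 ^ 2 + b.2 ^ 2)| ≤ 1 / H).card : ℝ) := by
    have : Cl (S ×ˢ S) (fun k : ℝ × ℝ => k.1 + k.2) (fun k : ℝ × ℝ => k.1 ^ 2 + k.2 ^ 2) T H =
      ∑ a ∈ S ×ˢ S, ((S ×ˢ S).filter fun b : ℝ × ℝ => |a.1 + a.2 - (b.1 + b.2)| ≤ 1 / T ∧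
        |a.1 ^ 2 + a.2 ^ 2 - (b.1 ^ 2 + b.2 ^ 2)| ≤ 1 / H).card := by
      unfold Cl
      simp only [Finset.card_filter]
      rw [Finset.sum_product]
    rw [this]
    push_cast
    rfl
  rw [hCl]
  have hpt : ∀ s1 ∈ S, ∀ s2 ∈ S, (((S ×ˢ S).filter fun b : ℝ × ℝ => |s1 + s2 - (b.1 + b.2)| ≤ 1 / T ∧
        |s1 ^ 2 + s2 ^ 2 - (b.1 ^ 2 + b.2 ^ 2)| ≤ 1 / H).card : ℝ) ≤
      (if 1 / (4 * N) ≤ |s2 - s1| then 3200 * (N ^ 2 / (T * H)) * (1 / |s2 - s1|) else 0) +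
      (if s2 = s1 then 420 * (N ^ 3 / (T * H)) else 0) := by
    intro s1 hs1 s2 hs2
    by_cases h : s2 = s1
    · subst h
      rw [if_pos rfl]
      have h1 := NQC_diag hNCT hH hHT hTN hS hSep hs1 ((S ×ˢ S).filter fun b : ℝ × ℝ => |s2 + s2 - (b.1 + b.2)| ≤ 1 / T ∧
        |s2 ^ 2 + s2 ^ 2 - (b.1 ^ 2 + b.2 ^ 2)| ≤ 1 / H) (Finset.filter_subset _ _) (fun b hb => (Finset.mem_filter.mp hb).2)
      have h2 : (0 : ℝ) ≤ (if 1 / (4 * N) ≤ |s2 - s2| then 3200 * (N ^ 2 / (T * H)) * (1 / |s2 - s2|) else 0) := by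
        split_ifs
        · positivity
        · exact le_refl _
      linarith
    · rw [if_neg h, add_zero, if_pos (hSep s2 hs2 s1 hs1 h)]
      exact NQC_off hNCT hH hHT hTN hS hSep hs1 hs2 h _ (Finset.filter_subset _ _) (fun b hb => (Finset.mem_filter.mp hb).2)
  rw [Finset.sum_product]
  have hrow : ∀ s1 ∈ S, ∑ s2 ∈ S, (((S ×ˢ S).filter fun b : ℝ × ℝ => |s1 + s2 - (b.1 + b.2)| ≤ 1 / T ∧
        |s1 ^ 2 + s2 ^ 2 - (b.1 ^ 2 + b.2 ^ 2)| ≤ 1 / H).card : ℝ) ≤ 52000 * C0 * (N ^ 3 / (T * H)) * (1 + Real.log N) := by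
    intro s1 hs1
    refine (Finset.sum_le_sum (hpt s1 hs1)).trans ?_
    rw [Finset.sum_add_distrib, Finset.sum_ite_eq' S s1, if_pos hs1, ← Finset.sum_filter, ← Finset.mul_sum]
    have h1 := hHS (1 / (4 * N)) S s1 (by positivity) (by
      rw [div_le_one (by positivity)]
      linarith) hS hSep (hS s1 hs1)
    have h2 : Real.log (1 / (1 / (4 * N))) ≤ 3 + Real.log N := by
      rw [one_div_one_div, Real.log_mul (by norm_num) hN.ne']
      have := Real.log_le_sub_one_of_pos (show (0 : ℝ) < 4 by norm_num)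
      linarith
    have h3 : ∑ s ∈ S.filter (fun s => 1 / (4 * N) ≤ |s - s1|), 1 / |s - s1| ≤ C0 * (4 * N) * (4 * (1 + Real.log N)) := by
      refine h1.trans ?_
      have e : C0 / (1 / (4 * N)) = C0 * (4 * N) := by
        field_simp
      rw [e]
      apply mul_le_mul_of_nonneg_left _ (by positivity)
      linarith
    have hA : 0 ≤ N ^ 2 / (T * H) := by positivity
    have hB : 0 ≤ N ^ 3 / (T * H) := by positivity
    calc 3200 * (N ^ 2 / (T * H)) * ∑ s ∈ S.filter (fun s => 1 / (4 * N) ≤ |s - s1|), 1 / |s - s1| + 420 * (N ^ 3 / (T * H))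
        ≤ 3200 * (N ^ 2 / (T * H)) * (C0 * (4 * N) * (4 * (1 + Real.log N))) + 420 * (N ^ 3 / (T * H)) := by
          have := mul_le_mul_of_nonneg_left h3 (by positivity : 0 ≤ 3200 * (N ^ 2 / (T * H)))
          linarith
      _ = 51200 * C0 * (N ^ 3 / (T * H)) * (1 + Real.log N) + 420 * (N ^ 3 / (T * H)) := by
          ring
      _ ≤ 51200 * C0 * (N ^ 3 / (T * H)) * (1 + Real.log N) + 800 * (C0 * (N ^ 3 / (T * H)) * (1 + Real.log N)) := by
          have h5 : 1 ≤ C0 * (1 + Real.log N) := by nlinarith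
          have h6 : N ^ 3 / (T * H) ≤ C0 * (N ^ 3 / (T * H)) * (1 + Real.log N) := by
            calc N ^ 3 / (T * H) = 1 * (N ^ 3 / (T * H)) := (one_mul _).symm
              _ ≤ C0 * (1 + Real.log N) * (N ^ 3 / (T * H)) := mul_le_mul_of_nonneg_right h5 hB
              _ = C0 * (N ^ 3 / (T * H)) * (1 + Real.log N) := by ring
          linarith
      _ = 52000 * C0 * (N ^ 3 / (T * H)) * (1 + Real.log N) := by ring
  refine (Finset.sum_le_card_nsmul _ _ _ hrow).trans (le_of_eq ?_)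
  rw [nsmul_eq_mul]
  ring

end Pool.Agent.T1N
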